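import Mathlib

namespace Pool.Agent.Results.MP_496bc7_gt.NotOpen
open Set Topology Filter

/-- `supp` makes `S` a supp-perfect semigroup over the set `X`. -/
structure SuppPerfect {S X : Type} [Semigroup S] (supp : S → Set X) : Prop where
  cover : ⋃ f, supp f = univ
  mul : ∀ f g, supp (f * g) ⊆ supp f ∪ supp g
  comm : ∀ f g, supp f ∩ supp g = ∅ → f * g = g * f
  fin : ∀ f, (supp f).Finite
  fin' : ∀ F : Set X, F.Finite → {f | supp f ⊆ F}.Finite
  cent : ∀ F : Set X, F.Finite → {f | supp f ⊆ F} = Set.centralizer {f | supp f ⊆ Fᶜ}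

/-- The semi-Zariski topology on a semigroup `S`; `WithOne S` is `S` with an external identity. -/
def semiZariski (S : Type) [Semigroup S] : TopologicalSpace S :=
  TopologicalSpace.generateFrom
    ({U | ∃ a b c : WithOne S, U = {x : S | a * x * b ≠ c}} ∪
      {U | ∃ a b c d : WithOne S, U = {x : S | a * x * b ≠ c * x * d}})

lemma le_zar (S : Type) [Semigroup S] [τ : TopologicalSpace S] [T2Space S] [ContinuousMul S] :
    τ ≤ semiZariski S := by
  have red : ∀ a b : WithOne S, ∃ φ : S → S, Continuous φ ∧ ∀ x : S, a * x * b = φ x := by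
    intro a b
    induction a using WithOne.recOneCoe <;> induction b using WithOne.recOneCoe
    · exact ⟨id, continuous_id, by simp⟩
    · exact ⟨_, continuous_mul_const _, fun x => by rw [one_mul, WithOne.coe_mul]⟩
    · exact ⟨_, continuous_const_mul _, fun x => by rw [mul_one, WithOne.coe_mul]⟩
    · exact ⟨_, (continuous_const_mul _).mul continuous_const, fun x => by
        rw [Pi.mul_apply, WithOne.coe_mul, WithOne.coe_mul]⟩
  refine le_generateFrom ?_
  rintro U (⟨a, b, c, rfl⟩ | ⟨a, b, c, d, rfl⟩)
  · obtain ⟨φ, h, e⟩ := red a b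
    induction c using WithOne.recOneCoe with
    | one => simp [e]
    | coe c => simpa [e] using isOpen_ne_fun h continuous_const
  · obtain ⟨φ, h, e⟩ := red a b
    obtain ⟨ψ, h', e'⟩ := red c d
    simpa [e, e'] using isOpen_ne_fun h h'

inductive T
  | f | F (k : ℕ) | a (t : ℕ) | g (n : ℕ) | h (i m : ℕ) | z | o

open T

def R : T → T → Prop
  | f, g _ => True
  | F k, g n => n ≤ k
  | F k, h i m => i ≤ k ∧ k ≤ m
  | a t, g n => t = n
  | a t, h i m => t = i ∨ t = m
  | _, _ => False

open Classical in
noncomputable instance : Semigroup T where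
  mul a b := if R a b then z else o
  mul_assoc a b c := by
    show (if R (if R a b then z else o) c then z else o) =
      if R a (if R b c then z else o) then z else o
    have h1 : ∀ u, ¬ R z u ∧ ¬ R o u ∧ ¬ R u z ∧ ¬ R u o := fun u => by cases u <;> simp [R]
    split_ifs <;> simp_all

open Classical in
lemma mul_def (a b : T) : a * b = if R a b then z else o := rfl

lemma cm (a b : T) : a * b = b * a ↔ (R a b ↔ R b a) := by
  simp only [mul_def]
  split_ifs <;> simp_all

def sp : T → Set (Option ℕ)
  | f => {none}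
  | F k => some '' Iic k
  | a t => {some t}
  | g n => {none, some n}
  | h i m => {some i, some m}
  | _ => ∅

lemma perfect : SuppPerfect sp := by
  have hc : ∀ u v, sp u ∩ sp v = ∅ → u * v = v * u := fun u v e => by
    rw [cm]
    rw [eq_empty_iff_forall_notMem] at e
    cases u <;> cases v <;> simp [R, sp] at e ⊢ <;> grind
  refine ⟨eq_univ_of_forall fun x => mem_iUnion.2 ?_, fun u v => ?_, hc, fun u => ?_,
    fun A hA => ?_, fun A hA => Subset.antisymm (fun u hu v hv => hc _ _ ?_) fun u hu x hx => ?_⟩
  · cases x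
    exacts [⟨f, rfl⟩, ⟨a _, rfl⟩]
  · rw [mul_def]; split_ifs <;> simp [sp]
  · cases u <;> simp [sp, (finite_Iic _).image]
  · have B := hA.preimage (Option.some_injective ℕ).injOn
    refine ((((B.image F).union (B.image a)).union ((B.image g).union (B.image2 h B))).union
      (toFinite {f, z, o})).subset fun u hu => ?_
    cases u <;> simp [sp, subset_def] at hu ⊢ <;> grind
  · exact eq_empty_of_forall_notMem fun x hx => hv hx.1 (hu hx.2)
  · by_contra hA'
    have B := hA.preimage (Option.some_injective ℕ).injOn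
    have key : ∀ v, sp v ⊆ Aᶜ → (R v u ↔ R u v) := fun v hv => (cm _ _).1 (hu v hv)
    obtain ⟨N, hN⟩ := B.bddAbove
    have hm : ∀ k, some (N + 1 + k) ∉ A := fun k e => by have := hN e; omega
    cases u with
    | f =>
      obtain rfl : x = none := hx
      simpa [R] using key (g (N + 1 + 0)) (by simp [sp, subset_def, hA', hm 0])
    | F k =>
      obtain ⟨i, hi, rfl⟩ := hx
      have := key (h i (N + 1 + k)) (by simp [sp, subset_def, hA', hm k])
      simp [R, mem_Iic.1 hi] at this
    | a t =>
      obtain rfl : x = some t := hx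
      simpa [R] using key (h t t) (by simp [sp, hA'])
    | g n =>
      rcases hx with rfl | rfl
      · simpa [R] using key f (by simp [sp, hA'])
      · simpa [R] using key (a n) (by simp [sp, hA'])
    | h i m =>
      rcases hx with rfl | rfl
      · simpa [R] using key (a i) (by simp [sp, hA'])
      · simpa [R] using key (a m) (by simp [sp, hA'])
    | _ => exact hx

instance : TopologicalSpace T where
  IsOpen U := f ∈ U → ∀ᶠ k in atTop, F k ∈ U
  isOpen_univ _ := by simp
  isOpen_inter _ _ a b c := (a c.1).and (b c.2)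
  isOpen_sUnion _ a := fun ⟨U, b, c⟩ => (a U b c).mono fun _ d => ⟨U, b, d⟩

lemma op {U : Set T} : IsOpen U ↔ (f ∈ U → ∀ᶠ k in atTop, F k ∈ U) := Iff.rfl

lemma o1 {u : T} (hu : u ≠ f) : IsOpen {u} := op.2 fun e => absurd e.symm hu

lemma o2 {u : T} : IsOpen {u}ᶜ := op.2 fun _ => by
  cases u <;> simp
  rename_i k _
  exact ⟨k + 1, fun b _ => by omega⟩

instance : T2Space T := ⟨fun u v e => by
  by_cases hu : u = f
  · exact ⟨_, _, o2, o1 (hu ▸ e.symm), e, rfl, disjoint_compl_left⟩
  · exact ⟨_, _, o1 hu, o2, rfl, e.symm, disjoint_compl_right⟩⟩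

instance : ContinuousMul T := ⟨continuous_iff_continuousAt.2 fun ⟨u, v⟩ => by
  refine (tendsto_const_nhds (x := u * v)).congr' ?_
  by_cases hv : v = f
  · subst hv
    refine mem_of_superset (prod_mem_nhds univ_mem ((op (U := insert f (range F))).2
      (by simp) |>.mem_nhds (by simp))) ?_
    rintro ⟨p, q⟩ ⟨-, rfl | ⟨k, rfl⟩⟩ <;> cases u <;> cases p <;> simp [mul_def, R]
  · refine mem_of_superset (prod_mem_nhds ((op (U := {p | u * v = p * v})).2 ?_ |>.mem_nhds rfl)
      ((o1 hv).mem_nhds rfl)) ?_
    · intro e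
      simp only [mem_ofPred_eq] at e ⊢
      rw [e]
      cases v <;> simp [mul_def, R]
      · exact ⟨_, fun _ => id⟩
      · rename_i i m
        exact ⟨m + 1, fun b _ _ => by omega⟩
    · rintro ⟨p, q⟩ ⟨e, rfl⟩
      exact e⟩

theorem result : ∃ (S X : Type) (_ : Semigroup S) (supp : S → Set X) (x : X),
    SuppPerfect supp ∧ ¬ IsOpen[semiZariski S] {s | x ∈ supp s} ∧
    ∃ _ : TopologicalSpace S, T2Space S ∧ ContinuousMul S ∧ ¬ IsOpen {s | x ∈ supp s} := by
  have : ¬ IsOpen {s | none ∈ sp s} := fun e => by simpa [sp] using (op.1 e rfl).exists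
  exact ⟨T, _, inferInstance, sp, none, perfect, fun e => this (e.mono (le_zar T)),
    inferInstance, inferInstance, inferInstance, this⟩

end Pool.Agent.Results.MP_496bc7_gt.NotOpen
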